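import Pool.Agent.TH655.HM.Base
import Pool.Agent.TH255.QI.All

/-!
# A Diophantine relation with quasi-integral coordinates
-/

set_option autoImplicit false

namespace Pool.Agent.TH255.QM

open Pool.Agent.NPC Pool.Agent.H528R2 Pool.Agent.H528R2.Dio MvPolynomial
open Pool.Agent.TH255.HC (Uni)
open Pool.Agent.TH255.QI (Qu DT)
open Pool.Agent.TH655.HM (dq_const dq_all dq_exN pf_aeval pf_int)

/-! ### sets of quasi-integers -/

theorem rpow_le3 {a b : ℝ} (δ : ℝ) (ha : 0 < a) (hb : 0 < b) (h1 : a ≤ 3 * b) (h2 : b ≤ 3 * a) :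
    a ^ δ ≤ 3 ^ |δ| * b ^ δ := by
  rcases le_or_gt 0 δ with h | h
  · rw [abs_of_nonneg h]
    calc a ^ δ ≤ (3 * b) ^ δ := Real.rpow_le_rpow ha.le h1 h
      _ = 3 ^ δ * b ^ δ := Real.mul_rpow (by norm_num) hb.le
  · rw [abs_of_neg h]
    calc a ^ δ ≤ (b / 3) ^ δ := by
          apply Real.rpow_le_rpow_of_nonpos (by positivity) _ h.le
          linarith
      _ = 3 ^ (-δ) * b ^ δ := by
          rw [Real.div_rpow hb.le (by norm_num), Real.rpow_neg (by norm_num)]
          field_simp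

theorem log_comp {s t : ℝ} (h : |s| ≤ |t| + 2) :
    1 + Real.log (max 1 |s|) ≤ 3 * (1 + Real.log (max 1 |t|)) := by
  have h1 : (1 : ℝ) ≤ max 1 |t| := le_max_left _ _
  have h2 : max 1 |s| ≤ 3 * max 1 |t| := by
    apply max_le
    · linarith
    · have : |t| ≤ max 1 |t| := le_max_right _ _
      linarith
  have h3 : Real.log (max 1 |s|) ≤ Real.log (3 * max 1 |t|) :=
    Real.log_le_log (lt_of_lt_of_le one_pos (le_max_left _ _)) h2
  rw [Real.log_mul (by norm_num) (by positivity)] at h3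
  have h4 : Real.log 3 ≤ 2 := by
    have := Real.log_le_sub_one_of_pos (show (0 : ℝ) < 3 by norm_num)
    linarith
  have h5 := Real.log_nonneg h1
  linarith

theorem comp {A δ : ℝ} {s t : ℚ} (h : |s - t| ≤ 2 ∨ |s + t| ≤ 2) (hd : s.den = t.den)
    (ht : Real.log t.den ≤ A * (1 + Real.log (max 1 |(t : ℝ)|)) ^ δ) :
    Real.log s.den ≤ (|A| * 3 ^ |δ|) * (1 + Real.log (max 1 |(s : ℝ)|)) ^ δ := by
  have h' : |(s : ℝ)| ≤ |(t : ℝ)| + 2 ∧ |(t : ℝ)| ≤ |(s : ℝ)| + 2 := by
    rcases h with h | h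
    · have h0 : |(s : ℝ) - t| ≤ 2 := by exact_mod_cast h
      constructor
      · have := abs_sub_abs_le_abs_sub (s : ℝ) t
        linarith
      · have := abs_sub_abs_le_abs_sub (t : ℝ) s
        rw [abs_sub_comm] at this
        linarith
    · have h0 : |(s : ℝ) + t| ≤ 2 := by exact_mod_cast h
      constructor
      · have := abs_sub_abs_le_abs_sub (s : ℝ) (-t)
        rw [abs_neg, sub_neg_eq_add] at this
        linarith
      · have := abs_sub_abs_le_abs_sub (t : ℝ) (-s)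
        rw [abs_neg, sub_neg_eq_add, add_comm (t : ℝ)] at this
        linarith
  have hpos : ∀ x : ℝ, 0 < 1 + Real.log (max 1 |x|) := fun x => by
    have := Real.log_nonneg (le_max_left 1 |x|)
    linarith
  rw [hd]
  calc Real.log t.den ≤ A * (1 + Real.log (max 1 |(t : ℝ)|)) ^ δ := ht
    _ ≤ |A| * (1 + Real.log (max 1 |(t : ℝ)|)) ^ δ :=
        mul_le_mul_of_nonneg_right (le_abs_self A) (Real.rpow_nonneg (hpos _).le _)
    _ ≤ |A| * (3 ^ |δ| * (1 + Real.log (max 1 |(s : ℝ)|)) ^ δ) :=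
        mul_le_mul_of_nonneg_left (rpow_le3 δ (hpos _) (hpos _) (log_comp h'.2) (log_comp h'.1))
          (abs_nonneg A)
    _ = _ := by ring

theorem qu_shift {A δ : ℝ} {T : Set ℚ} (hT : Qu A δ T) :
    Qu (|A| * 3 ^ |δ|) δ {t | t + 2 ∈ T ∨ 2 - t ∈ T} := by
  refine ⟨fun z => Or.inl ?_, fun t ht => ?_⟩
  · have := hT.1 (z + 2)
    push_cast at this
    exact this
  · rcases ht with ht | ht
    · refine comp (Or.inl ?_) ?_ (hT.2 _ ht)
      · rw [show t - (t + 2) = -2 by ring]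
        norm_num
      · have := Rat.add_intCast_den t 2
        push_cast at this
        exact this.symm
    · refine comp (Or.inr ?_) ?_ (hT.2 _ ht)
      · rw [show t + (2 - t) = 2 by ring]
        norm_num
      · have h1 := Rat.add_intCast_den (-t) 2
        push_cast at h1
        rw [show (2 : ℚ) - t = -t + 2 by ring, h1]
        rfl

theorem qu_int {A δ : ℝ} (hA : 0 ≤ A) : Qu A δ (Set.range ((↑) : ℤ → ℚ)) := by
  refine ⟨fun z => ⟨z, rfl⟩, ?_⟩
  rintro _ ⟨z, rfl⟩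
  rw [Rat.den_intCast, Nat.cast_one, Real.log_one]
  refine mul_nonneg hA (Real.rpow_nonneg ?_ _)
  have := Real.log_nonneg (le_max_left 1 |((z : ℚ) : ℝ)|)
  linarith

theorem exists_bad (A δ : ℝ) : ∃ q : ℚ, q ≠ 0 ∧ q ≠ 1 ∧ ∀ T, Qu A δ T → q ∉ T := by
  obtain ⟨N, hN⟩ := exists_nat_gt (Real.exp A)
  refine ⟨((N + 2 : ℕ) : ℚ)⁻¹, by positivity, ?_, fun T hT hq => ?_⟩
  · intro h
    rw [inv_eq_one] at h
    have : N + 2 = 1 := by exact_mod_cast h
    omega
  · have h := hT.2 _ hq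
    rw [Rat.inv_natCast_den_of_pos (by omega)] at h
    have h1 : |((((N + 2 : ℕ) : ℚ)⁻¹ : ℚ) : ℝ)| ≤ 1 := by
      have h2 : ((((N + 2 : ℕ) : ℚ)⁻¹ : ℚ) : ℝ) = ((N : ℝ) + 2)⁻¹ := by push_cast; rfl
      rw [h2, abs_of_pos (by positivity)]
      apply inv_le_one_of_one_le₀
      have : (0 : ℝ) ≤ N := Nat.cast_nonneg N
      linarith
    rw [max_eq_left h1, Real.log_one, add_zero, Real.one_rpow, mul_one] at h
    have h3 : A < Real.log ((N + 2 : ℕ) : ℝ) := by
      rw [Real.lt_log_iff_exp_lt (by positivity)]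
      push_cast
      linarith
    linarith

/-! ### the relation -/

/-- The relation: the marks `x 1, …, x n` are the absolute values plus `2` of the coordinates of a
solution, or a trivial solution whose last mark is no quasi-integer. -/
def Rel {n : ℕ} (F : MvPolynomial (Fin (n + 1)) ℤ) (q : ℚ) (x : ℕ → ℚ) : Prop :=
  ((∃ y : ℕ → ℚ, y 0 = x 0 ∧ aeval (fun i : Fin (n + 1) => y i) F = 0 ∧
      ∀ j ∈ List.range n, y (j + 1) * y (j + 1) =
        (x (j + 1) + ((-2 : ℤ) : ℚ)) * (x (j + 1) + ((-2 : ℤ) : ℚ))) ∧ x (n + 1) = 2) ∨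
  ((∀ j ∈ List.range n, x (j + 1) = 2) ∧ x (n + 1) = q)

theorem dq_Rel {n : ℕ} (F : MvPolynomial (Fin (n + 1)) ℤ) (q : ℚ) : DQ (Rel F q) := by
  unfold Rel
  refine DQ.or ((?_ : DQ _).and (dq_const _ _))
    ((dq_all _ _ fun j => dq_const _ _).and (dq_const _ _))
  have h := dq_exN (n + 1) (R := fun z => z 0 = z (n + 1) ∧
    aeval (fun i : Fin (n + 1) => z i) F = 0 ∧
    ∀ j ∈ List.range n, z (j + 1) * z (j + 1) =
      (z (n + 1 + (j + 1)) + ((-2 : ℤ) : ℚ)) * (z (n + 1 + (j + 1)) + ((-2 : ℤ) : ℚ)))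
    ((DQ.eq (PF.var _) (PF.var _)).and ((DQ.eq (pf_aeval F _) PF.zero).and
      (dq_all _ _ fun j => DQ.eq ((PF.var _).mul (PF.var _))
        (((PF.var _).add (pf_int _)).mul ((PF.var _).add (pf_int _))))))
  refine h.congr fun x => ?_
  have e1 : ∀ y : ℕ → ℚ, (fun i : Fin (n + 1) => if (i : ℕ) < n + 1 then y i else
      x (i - (n + 1))) = fun i : Fin (n + 1) => y i := by
    intro y
    funext i
    rw [if_pos i.2]
  constructor
  · rintro ⟨y, h0, hp, hq⟩
    refine ⟨y, ?_, ?_, ?_⟩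
    · simpa using h0
    · simp only [e1]
      exact hp
    · intro j hj
      have h1 := hq j hj
      have hj' := List.mem_range.1 hj
      simp only
      rw [if_pos (by omega), if_neg (by omega), Nat.add_sub_cancel_left]
      exact h1
  · rintro ⟨y, h0, hp, hq⟩
    refine ⟨y, ?_, ?_, ?_⟩
    · simpa using h0
    · simp only [e1] at hp
      exact hp
    · intro j hj
      have h1 := hq j hj
      have hj' := List.mem_range.1 hj
      simp only at h1
      rw [if_pos (by omega), if_neg (by omega), Nat.add_sub_cancel_left] at h1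
      exact h1

theorem Rel.congr {n : ℕ} {F : MvPolynomial (Fin (n + 1)) ℤ} {q : ℚ} {x x' : ℕ → ℚ}
    (hx : ∀ i < n + 1 + 1, x i = x' i) (h : Rel F q x) : Rel F q x' := by
  rcases h with ⟨⟨y, h0, hp, hq⟩, h1⟩ | ⟨hq, h1⟩
  · refine Or.inl ⟨⟨y, ?_, hp, fun j hj => ?_⟩, ?_⟩
    · rw [← hx 0 (by omega)]
      exact h0
    · have := List.mem_range.1 hj
      rw [← hx _ (by omega)]
      exact hq j hj
    · rw [← hx _ (by omega)]
      exact h1
  · refine Or.inr ⟨fun j hj => ?_, ?_⟩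
    · have := List.mem_range.1 hj
      rw [← hx _ (by omega)]
      exact hq j hj
    · rw [← hx _ (by omega)]
      exact h1

theorem exists_rel (A δ : ℝ) (hδ : δ < 1 / 2) :
    ∃ (r : ℕ) (P : (Fin (r + 1) → ℚ) → Prop), DioQ (r + 1) P ∧
      (∀ c : ℕ, ∃ x : ℕ → ℚ, x 0 = c ∧ P (fun i => x i) ∧
        ∀ j < r, x (j + 1) ≠ 0 ∧ x (j + 1) ≠ 1) ∧
      (∀ c : ℕ, Uni c → ∃ x : ℕ → ℚ, x 0 = c ∧ P (fun i => x i) ∧
        (∀ j < r, x (j + 1) ≠ 0 ∧ x (j + 1) ≠ 1) ∧ ∀ j < r, ∃ z : ℤ, x (j + 1) = z) ∧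
      (∀ T, Qu A δ T → ∀ c : ℕ, ∀ x : ℕ → ℚ, x 0 = c → P (fun i => x i) →
        (∀ j < r, x (j + 1) ∈ T) → Uni c) := by
  obtain ⟨n, F, hF⟩ := DT.final_all (A := |A| * 3 ^ |δ|) (δ := δ)
    (P := fun x => ∃ a : ℕ, x = a ∧ Uni a) (QI.dt_re hδ HC.uni_re)
  obtain ⟨q, hq0, hq1, hq⟩ := exists_bad A δ
  let P : (Fin (n + 1 + 1) → ℚ) → Prop := fun z =>
    Rel F q (fun i => if h : i < n + 1 + 1 then z ⟨i, h⟩ else 0)
  have hP : ∀ x : ℕ → ℚ, P (fun i => x i) ↔ Rel F q x := by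
    intro x
    constructor
    · exact Rel.congr fun i hi => by simp only [dif_pos hi]
    · exact Rel.congr fun i hi => by simp only [dif_pos hi]
  refine ⟨n + 1, P, Dio.DQ.dioQ ((dq_Rel F q).congr hP), fun c => ?_, fun c hc => ?_,
    fun T hT c x h0 hx hxT => ?_⟩
  · let x : ℕ → ℚ := fun i => if i = 0 then (c : ℚ) else if i = n + 1 then q else 2
    refine ⟨x, by simp [x], (hP x).2 (Or.inr ⟨fun j hj => ?_, ?_⟩), fun j _ => ?_⟩
    · have := List.mem_range.1 hj
      simp only [x]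
      rw [if_neg (by omega), if_neg (by omega)]
    · simp [x]
    · simp only [x]
      rw [if_neg (by omega)]
      split_ifs
      · exact ⟨hq0, hq1⟩
      · norm_num
  · obtain ⟨y, hyT, hy⟩ := (hF _ (qu_int (by positivity)) c).1 ⟨c, rfl, hc⟩
    choose z hz using hyT
    let Y : ℕ → ℚ := fun i => if h : i < n + 1 then (Fin.cons (c : ℚ) y : Fin (n + 1) → ℚ) ⟨i, h⟩
      else 0
    let Z : ℕ → ℤ := fun i => if h : i < n then z ⟨i, h⟩ else 0
    have hYZ : ∀ i < n, Y (i + 1) = Z i := by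
      intro i hi
      simp only [Y, Z, dif_pos (show i + 1 < n + 1 by omega), dif_pos hi]
      rw [show (⟨i + 1, by omega⟩ : Fin (n + 1)) = Fin.succ ⟨i, hi⟩ from rfl, Fin.cons_succ]
      exact (hz _).symm
    let x : ℕ → ℚ := fun i => if i = 0 then (c : ℚ) else ((|Z (i - 1)| + 2 : ℤ) : ℚ)
    have hx : ∀ j, x (j + 1) = ((|Z j| + 2 : ℤ) : ℚ) := fun j => by
      simp only [x]
      rw [if_neg (by omega), Nat.add_sub_cancel]
    refine ⟨x, by simp [x], (hP x).2 (Or.inl ⟨⟨Y, ?_, ?_, ?_⟩, ?_⟩), fun j _ => ?_,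
      fun j _ => ⟨_, hx j⟩⟩
    · simp [Y, x]
    · have : (fun i : Fin (n + 1) => Y i) = (Fin.cons (c : ℚ) y : Fin (n + 1) → ℚ) := by
        funext i
        simp only [Y, dif_pos i.2]
      rw [this]
      exact hy
    · intro j hj
      rw [hx, hYZ j (List.mem_range.1 hj)]
      push_cast
      rw [show (|(Z j : ℚ)| + 2 + -2) = |(Z j : ℚ)| by ring, abs_mul_abs_self]
    · rw [hx]
      have : Z n = 0 := by simp [Z]
      rw [this]
      norm_num
    · rw [hx]
      have h1 : 0 ≤ |Z j| := abs_nonneg _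
      constructor
      · intro h
        have : |Z j| + 2 = 0 := by exact_mod_cast h
        omega
      · intro h
        have : |Z j| + 2 = 1 := by exact_mod_cast h
        omega
  · rcases (hP x).1 hx with ⟨⟨y, hy0, hyF, hyx⟩, -⟩ | ⟨-, h1⟩
    · have hcons : (Fin.cons (c : ℚ) (fun i : Fin n => y (i + 1)) : Fin (n + 1) → ℚ) =
          fun i : Fin (n + 1) => y i := by
        funext i
        refine Fin.cases ?_ (fun j => ?_) i
        · rw [Fin.cons_zero, Fin.val_zero, hy0, h0]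
        · rw [Fin.cons_succ, Fin.val_succ]
      have hmem : ∀ i : Fin n, y (i + 1) ∈ {t : ℚ | t + 2 ∈ T ∨ 2 - t ∈ T} := by
        intro i
        have h2 := hyx i (List.mem_range.2 i.2)
        have h3 := hxT i (by omega)
        push_cast at h2
        rcases mul_self_eq_mul_self_iff.1 h2 with h4 | h4
        · left
          rw [h4, show x (i + 1) + -2 + 2 = x (i + 1) by ring]
          exact h3
        · right
          rw [h4, show 2 - -(x (i + 1) + -2) = x (i + 1) by ring]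
          exact h3
      obtain ⟨c', hc', hU⟩ := (hF _ (qu_shift hT) c).2
        ⟨fun i : Fin n => y (i + 1), hmem, by rw [hcons]; exact hyF⟩
      have : c = c' := by exact_mod_cast hc'
      subst this
      exact hU
    · exfalso
      have h3 := hxT n (by omega)
      rw [h1] at h3
      exact hq T hT h3

end Pool.Agent.TH255.QM
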